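import Pool.Agent.H95.FG.Defs
import Pool.Graph.R_seed8.H402R2.CE.All

/-!
# Crew FG: parts D1, POL, SQ
-/

open MvPolynomial

namespace Pool.Agent.H74.FG

open H95.FG

/-- D1 -/
theorem d1 : S_D1 := by
  intro n m p hp hh
  have h1 : ∀ j, p j ∈ Submodule.span ℂ (Set.range (X : Fin n → MvPolynomial (Fin n) ℂ)) := by
    intro j
    rw [← homogeneousSubmodule_one_eq_span_X, mem_homogeneousSubmodule]
    exact hh j
  have h2 : Set.range p ⊆
      (Submodule.span ℂ (Set.range (X : Fin n → MvPolynomial (Fin n) ℂ)) :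
        Set (MvPolynomial (Fin n) ℂ)) := by
    rintro _ ⟨j, rfl⟩
    exact h1 j
  have h3 := linearIndependent_le_span' p hp _ h2
  have h4 : Fintype.card (Set.range (X : Fin n → MvPolynomial (Fin n) ℂ)) ≤ n := by
    have := Fintype.card_range_le (X : Fin n → MvPolynomial (Fin n) ℂ)
    simpa using this
  have h5 : (m : Cardinal.{0}) ≤
      (Fintype.card (Set.range (X : Fin n → MvPolynomial (Fin n) ℂ)) : Cardinal.{0}) := by
    simpa using h3
  have h6 : m ≤ Fintype.card (Set.range (X : Fin n → MvPolynomial (Fin n) ℂ)) := by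
    exact_mod_cast h5
  exact h6.trans h4

theorem eval_cj {n : ℕ} (f : MvPolynomial (Fin n) ℂ) (z : Fin n → ℂ) :
    eval (fun k => (starRingEnd ℂ) (z k)) (cj f) = (starRingEnd ℂ) (eval z f) := by
  unfold cj
  rw [eval_map]
  show _ = (starRingEnd ℂ) (eval₂ (RingHom.id ℂ) z f)
  rw [eval₂_comp_left]
  rfl

theorem eval_kernel {n m : ℕ} (p : Fin m → MvPolynomial (Fin n) ℂ) (z : Fin n → ℂ) :
    eval (Sum.elim z (fun k => (starRingEnd ℂ) (z k)))
      (∑ j, rename Sum.inl (p j) * rename Sum.inr (cj (p j))) =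
      ((∑ j, ‖eval z (p j)‖ ^ 2 : ℝ) : ℂ) := by
  rw [map_sum]
  push_cast
  refine Finset.sum_congr rfl fun j _ => ?_
  rw [map_mul, eval_rename, eval_rename]
  have e1 : (Sum.elim z (fun k => (starRingEnd ℂ) (z k))) ∘ Sum.inl = z := rfl
  have e2 : (Sum.elim z (fun k => (starRingEnd ℂ) (z k))) ∘ Sum.inr =
      fun k => (starRingEnd ℂ) (z k) := rfl
  rw [e1, e2, eval_cj, Complex.mul_conj, Complex.normSq_eq_norm_sq]
  push_cast
  rfl

theorem eval_quadric {n : ℕ} (z : Fin n → ℂ) :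
    eval (Sum.elim z (fun k => (starRingEnd ℂ) (z k)))
      (∑ k : Fin n, X (Sum.inl k) * X (Sum.inr k)) =
      ((∑ k, ‖z k‖ ^ 2 : ℝ) : ℂ) := by
  rw [map_sum]
  push_cast
  refine Finset.sum_congr rfl fun j _ => ?_
  rw [map_mul, eval_X, eval_X, Sum.elim_inl, Sum.elim_inr, Complex.mul_conj,
    Complex.normSq_eq_norm_sq]
  push_cast
  rfl

/-- POL -/
theorem pol : S_POL := by
  rintro n m ⟨p, hp, A, hA⟩
  refine ⟨p, A, hp, ?_⟩
  have h := H402.CE.t3 n (∑ j, rename Sum.inl (p j) * rename Sum.inr (cj (p j)) -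
    (∑ k : Fin n, X (Sum.inl k) * X (Sum.inr k)) * A) (fun z => by
      rw [map_sub, map_mul, eval_kernel, eval_quadric, hA z, pow_one, sub_self])
  exact sub_eq_zero.1 h

/-- SQ -/
theorem sq : S_SQ := by
  intro n m p B hn hm hS
  obtain ⟨hp, hK⟩ := hS
  obtain ⟨n', rfl⟩ : ∃ n', n = n' + 1 := ⟨n - 1, by omega⟩
  have hB : B ≠ 0 := by
    rintro rfl
    rw [mul_zero, mul_zero] at hK
    have j0 : Fin m := ⟨0, hm⟩
    refine hp.ne_zero j0 (MvPolynomial.funext fun z => ?_)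
    have h1 := eval_kernel p z
    rw [hK, map_zero] at h1
    have h2 : (∑ j, ‖eval z (p j)‖ ^ 2 : ℝ) = 0 := by exact_mod_cast h1.symm
    rw [Finset.sum_eq_zero_iff_of_nonneg (fun j _ => by positivity)] at h2
    have h3 := h2 j0 (Finset.mem_univ _)
    rw [map_zero]
    simpa using h3
  have h2 := H402.CE.t2 (H402.CE.t1 H402.CE.t1a) H402.CE.t2a H402.CE.t2b n' 2 m p
    (fun j => cj (p j)) B (by rw [hK, pow_two, mul_assoc]) hB
  have h3 : (n' + 2).choose 2 = (n' + 2) * (n' + 1) / 2 := by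
    rw [Nat.choose_two_right]
    rfl
  have h4 : 2 ∣ (n' + 2) * (n' + 1) := (Nat.even_mul_pred_self (n' + 2)).two_dvd
  rw [h3] at h2
  have h5 : (n' + 2) * (n' + 1) ≤ 2 * m := by omega
  calc (n' + 1) * (n' + 1 + 1) = (n' + 2) * (n' + 1) := by ring
    _ ≤ 2 * m := h5

end Pool.Agent.H74.FG
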